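import Pool.Agent.W787.PS.StmA

/-! Project PS: Gagliardo-Nirenberg, exponential integrability. -/

set_option autoImplicit false

open MeasureTheory Set Metric Filter Topology
open scoped NNReal ENNReal

namespace Pool.Agent.W451.PS

open Pool.Agent.W787.PS

/-- Cauchy-Schwarz. -/
lemma cs {α : Type*} [MeasurableSpace α] {μ : Measure α} {f g : α → ℝ}
    (hf : Integrable (fun x => f x ^ 2) μ) (hg : Integrable (fun x => g x ^ 2) μ)
    (hfg : Integrable (fun x => f x * g x) μ) :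
    (∫ x, f x * g x ∂μ) ^ 2 ≤ (∫ x, f x ^ 2 ∂μ) * ∫ x, g x ^ 2 ∂μ := by
  have h : ∀ t : ℝ, 0 ≤ (∫ x, g x ^ 2 ∂μ) * (t * t) + (-2 * ∫ x, f x * g x ∂μ) * t +
      ∫ x, f x ^ 2 ∂μ := by
    intro t
    have h1 : 0 ≤ ∫ x, (f x - t * g x) ^ 2 ∂μ := integral_nonneg (fun x => sq_nonneg _)
    have h2 : ∫ x, (f x - t * g x) ^ 2 ∂μ = (∫ x, f x ^ 2 ∂μ) - (∫ x, 2 * t * (f x * g x) ∂μ) +
        ∫ x, t ^ 2 * g x ^ 2 ∂μ := by
      have hi1 : Integrable (fun x => 2 * t * (f x * g x)) μ := hfg.const_mul _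
      have hi2 : Integrable (fun x => f x ^ 2 - 2 * t * (f x * g x)) μ := hf.sub hi1
      have hi3 : Integrable (fun x => t ^ 2 * g x ^ 2) μ := hg.const_mul _
      rw [← integral_sub hf hi1, ← integral_add hi2 hi3]
      refine integral_congr_ae (Filter.Eventually.of_forall (fun x => ?_))
      show (f x - t * g x) ^ 2 = f x ^ 2 - 2 * t * (f x * g x) + t ^ 2 * g x ^ 2
      ring
    rw [h2, integral_const_mul, integral_const_mul] at h1
    nlinarith
  have h3 := discrim_le_zero h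
  unfold discrim at h3
  nlinarith

lemma nsq_nonneg (u : ℂ → ℝ) (x : ℂ) : 0 ≤ nsq u x := by
  unfold nsq
  positivity

lemma norm_fderiv_le (u : ℂ → ℝ) (x : ℂ) : ‖fderiv ℝ u x‖ ≤ Real.sqrt (nsq u x) := by
  refine ContinuousLinearMap.opNorm_le_bound _ (Real.sqrt_nonneg _) (fun v => ?_)
  have hv : v = v.re • (1 : ℂ) + v.im • Complex.I := by
    apply Complex.ext <;> simp
  have h1 : fderiv ℝ u x v = v.re * fderiv ℝ u x 1 + v.im * fderiv ℝ u x Complex.I := by
    conv_lhs => rw [hv]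
    rw [map_add, map_smul, map_smul]
    simp
  rw [h1, Real.norm_eq_abs]
  have h2 : ‖v‖ = Real.sqrt (v.re ^ 2 + v.im ^ 2) := by
    rw [Complex.norm_def, Complex.normSq_apply]
    congr 1
    ring
  rw [h2, ← Real.sqrt_mul (nsq_nonneg u x)]
  refine Real.abs_le_sqrt ?_
  unfold nsq
  nlinarith [sq_nonneg (v.re * fderiv ℝ u x Complex.I - v.im * fderiv ℝ u x 1)]

lemma continuous_nsq {u : ℂ → ℝ} (hu : ContDiff ℝ 1 u) : Continuous (nsq u) := by
  have h := hu.continuous_fderiv one_ne_zero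
  unfold nsq
  exact ((h.clm_apply continuous_const).pow 2).add ((h.clm_apply continuous_const).pow 2)

lemma nsq_eq_zero {u : ℂ → ℝ} {x : ℂ} (hx : x ∉ tsupport u) : nsq u x = 0 := by
  have h : fderiv ℝ u x = 0 := by
    by_contra hne
    exact hx (support_fderiv_subset ℝ (Function.mem_support.mpr hne))
  unfold nsq
  rw [h]
  simp

lemma compact_nsq {u : ℂ → ℝ} (hc : HasCompactSupport u) : HasCompactSupport (nsq u) :=
  HasCompactSupport.intro hc (fun _ hx => nsq_eq_zero hx)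

lemma integrable_nsq {u : ℂ → ℝ} (hu : ContDiff ℝ 1 u) (hc : HasCompactSupport u) :
    Integrable (nsq u) :=
  (continuous_nsq hu).integrable_of_hasCompactSupport (compact_nsq hc)

lemma intOn {u : ℂ → ℝ} (hu : Continuous u) (hc : HasCompactSupport u) {S : Set ℂ}
    (hS : volume S ≠ ⊤) {F : ℝ → ℝ} (hF : Continuous F) :
    IntegrableOn (fun x => F (u x)) S := by
  obtain ⟨M, hM⟩ := hc.exists_bound_of_continuous hu
  obtain ⟨B, hB⟩ := (isCompact_Icc (a := -M) (b := M)).exists_bound_of_continuousOn hF.continuousOn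
  refine Measure.integrableOn_of_bounded (M := B) hS (hF.comp hu).aestronglyMeasurable ?_
  refine Filter.Eventually.of_forall (fun x => hB _ ?_)
  exact abs_le.mp (hM x)

/-- Gagliardo-Nirenberg in real form. -/
lemma gn : ∃ C : ℝ, 0 < C ∧ ∀ f : ℂ → ℝ, ContDiff ℝ 1 f → HasCompactSupport f →
    ∫ x, f x ^ 2 ≤ C * (∫ x, ‖fderiv ℝ f x‖) ^ 2 := by
  set K : ℝ≥0 := lintegralPowLePowLIntegralFDerivConst (volume : Measure ℂ) 2 with hK
  refine ⟨K + 1, by positivity, fun f hf hc => ?_⟩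
  have hconj : Real.HolderConjugate (Module.finrank ℝ ℂ : ℝ) 2 := by
    rw [Complex.finrank_real_complex]
    exact_mod_cast Real.HolderConjugate.two_two
  have h := lintegral_pow_le_pow_lintegral_fderiv (volume : Measure ℂ) hf hc hconj
  have hint : Integrable (fun x => ‖fderiv ℝ f x‖) := by
    refine Continuous.integrable_of_hasCompactSupport
      (hf.continuous_fderiv one_ne_zero).norm (hc.fderiv ℝ).norm
  have hint2 : Integrable (fun x => f x ^ 2) := by
    refine Continuous.integrable_of_hasCompactSupport (hf.continuous.pow 2) ?_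
    exact HasCompactSupport.intro hc (fun x hx => by rw [image_eq_zero_of_notMem_tsupport hx]; simp)
  have e1 : ∫⁻ x, ‖f x‖ₑ ^ (2 : ℝ) = ENNReal.ofReal (∫ x, f x ^ 2) := by
    rw [ofReal_integral_eq_lintegral_ofReal hint2 (Filter.Eventually.of_forall fun x => sq_nonneg _)]
    refine lintegral_congr (fun x => ?_)
    rw [← ofReal_norm, ENNReal.ofReal_rpow_of_nonneg (norm_nonneg _) (by norm_num)]
    congr 1
    rw [Real.norm_eq_abs]
    norm_cast
    exact sq_abs _
  have e2 : ∫⁻ x, ‖fderiv ℝ f x‖ₑ = ENNReal.ofReal (∫ x, ‖fderiv ℝ f x‖) := by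
    rw [ofReal_integral_eq_lintegral_ofReal hint (Filter.Eventually.of_forall fun x => norm_nonneg _)]
    refine lintegral_congr (fun x => ?_)
    rw [ofReal_norm]
  have hI0 : 0 ≤ ∫ x, ‖fderiv ℝ f x‖ := integral_nonneg (fun x => norm_nonneg _)
  rw [e1, e2, ENNReal.ofReal_rpow_of_nonneg hI0 (by norm_num)] at h
  have e3 : ((∫ x, ‖fderiv ℝ f x‖) ^ (2 : ℝ) : ℝ) = (∫ x, ‖fderiv ℝ f x‖) ^ 2 := by
    norm_cast
  rw [e3, ← hK, ← ENNReal.ofReal_coe_nnreal, ← ENNReal.ofReal_mul (NNReal.coe_nonneg K)] at h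
  have h4 := (ENNReal.ofReal_le_ofReal_iff (by positivity)).mp h
  refine h4.trans ?_
  refine mul_le_mul_of_nonneg_right (by linarith) (sq_nonneg _)

/-- The basic recursion. -/
lemma rec_step : ∃ C : ℝ, 0 < C ∧ ∀ u : ℂ → ℝ, ContDiff ℝ 1 u → HasCompactSupport u →
    ∀ S : Set ℂ, MeasurableSet S → volume S ≠ ⊤ → tsupport u ⊆ S → ∀ j : ℕ,
    ∫ x, u x ^ (2 * (j + 1)) ≤ C * ((j : ℝ) + 1) ^ 2 * (∫ x in S, u x ^ (2 * j)) * ∫ x, nsq u x := by
  obtain ⟨C, hC, hgn⟩ := gn
  refine ⟨C, hC, fun u hu hc S hS hSf hsub j => ?_⟩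
  have hf : ContDiff ℝ 1 (fun x => u x ^ (j + 1)) := hu.pow (j + 1)
  have hfc : HasCompactSupport (fun x => u x ^ (j + 1)) :=
    HasCompactSupport.intro hc (fun x hx => by rw [image_eq_zero_of_notMem_tsupport hx]; simp)
  have h1 := hgn _ hf hfc
  have h0 : ∫ x, u x ^ (2 * (j + 1)) = ∫ x, (u x ^ (j + 1)) ^ 2 := by
    refine integral_congr_ae (Filter.Eventually.of_forall fun x => ?_)
    show u x ^ (2 * (j + 1)) = (u x ^ (j + 1)) ^ 2
    ring
  rw [h0]
  refine h1.trans ?_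
  -- the derivative
  have hd : ∀ x, ‖fderiv ℝ (fun x => u x ^ (j + 1)) x‖ ≤
      ((j : ℝ) + 1) * (|u x| ^ j * Real.sqrt (nsq u x)) := by
    intro x
    have hdx : DifferentiableAt ℝ u x := hu.differentiable one_ne_zero x
    rw [fderiv_fun_pow (j + 1) hdx]
    simp only [Nat.add_sub_cancel, norm_smul]
    have : ‖((j + 1 : ℕ) : ℝ) * u x ^ j‖ = ((j : ℝ) + 1) * |u x| ^ j := by
      rw [norm_mul, Real.norm_natCast, norm_pow, Real.norm_eq_abs]
      push_cast
      ring
    have h3 := norm_fderiv_le u x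
    calc ‖(j + 1) • u x ^ j‖ * ‖fderiv ℝ u x‖ = ((j : ℝ) + 1) * |u x| ^ j * ‖fderiv ℝ u x‖ := by
          rw [nsmul_eq_mul, this]
      _ ≤ ((j : ℝ) + 1) * |u x| ^ j * Real.sqrt (nsq u x) :=
          mul_le_mul_of_nonneg_left h3 (by positivity)
      _ = _ := by ring
  have hzero : ∀ x, x ∉ S → |u x| ^ j * Real.sqrt (nsq u x) = 0 := by
    intro x hx
    rw [nsq_eq_zero (fun h => hx (hsub h))]
    simp
  have hcont : Continuous (fun x => |u x| ^ j * Real.sqrt (nsq u x)) :=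
    (hu.continuous.abs.pow j).mul (continuous_nsq hu).sqrt
  have hcs : HasCompactSupport (fun x => |u x| ^ j * Real.sqrt (nsq u x)) :=
    HasCompactSupport.intro hc (fun x hx => by rw [nsq_eq_zero hx]; simp)
  have hint : Integrable (fun x => |u x| ^ j * Real.sqrt (nsq u x)) :=
    hcont.integrable_of_hasCompactSupport hcs
  have h4 : ∫ x, ‖fderiv ℝ (fun x => u x ^ (j + 1)) x‖ ≤
      ((j : ℝ) + 1) * ∫ x in S, |u x| ^ j * Real.sqrt (nsq u x) := by
    rw [setIntegral_eq_integral_of_forall_compl_eq_zero hzero, ← integral_const_mul]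
    refine integral_mono_of_nonneg (Filter.Eventually.of_forall fun x => norm_nonneg _)
      (hint.const_mul _) (Filter.Eventually.of_forall hd)
  have h5 : (∫ x in S, |u x| ^ j * Real.sqrt (nsq u x)) ^ 2 ≤
      (∫ x in S, (|u x| ^ j) ^ 2) * ∫ x in S, (Real.sqrt (nsq u x)) ^ 2 := by
    refine cs ?_ ?_ hint.integrableOn
    · exact intOn hu.continuous hc hSf (F := fun t => (|t| ^ j) ^ 2) (by fun_prop)
    · have : (fun x => (Real.sqrt (nsq u x)) ^ 2) = nsq u := by
        funext x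
        exact Real.sq_sqrt (nsq_nonneg u x)
      rw [this]
      exact (integrable_nsq hu hc).integrableOn
  have e5 : ∫ x in S, (|u x| ^ j) ^ 2 = ∫ x in S, u x ^ (2 * j) := by
    refine integral_congr_ae (Filter.Eventually.of_forall fun x => ?_)
    show (|u x| ^ j) ^ 2 = u x ^ (2 * j)
    rw [← pow_mul, mul_comm j 2, pow_mul, sq_abs, ← pow_mul]
  have e6 : ∫ x in S, (Real.sqrt (nsq u x)) ^ 2 ≤ ∫ x, nsq u x := by
    have : (fun x => (Real.sqrt (nsq u x)) ^ 2) = nsq u := by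
      funext x
      exact Real.sq_sqrt (nsq_nonneg u x)
    rw [this]
    exact setIntegral_le_integral (integrable_nsq hu hc)
      (Filter.Eventually.of_forall fun x => nsq_nonneg u x)
  have h6 : 0 ≤ ∫ x in S, |u x| ^ j * Real.sqrt (nsq u x) :=
    integral_nonneg (fun x => by positivity)
  have h7 : 0 ≤ ∫ x, ‖fderiv ℝ (fun x => u x ^ (j + 1)) x‖ := integral_nonneg (fun x => norm_nonneg _)
  have h8 : 0 ≤ ∫ x in S, u x ^ (2 * j) := by
    rw [← e5]
    exact integral_nonneg (fun x => by positivity)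
  rw [e5] at h5
  have h9 : (∫ x, ‖fderiv ℝ (fun x => u x ^ (j + 1)) x‖) ^ 2 ≤
      ((j : ℝ) + 1) ^ 2 * ((∫ x in S, u x ^ (2 * j)) * ∫ x, nsq u x) := by
    calc (∫ x, ‖fderiv ℝ (fun x => u x ^ (j + 1)) x‖) ^ 2 ≤
        (((j : ℝ) + 1) * ∫ x in S, |u x| ^ j * Real.sqrt (nsq u x)) ^ 2 :=
          pow_le_pow_left₀ h7 h4 2
      _ = ((j : ℝ) + 1) ^ 2 * (∫ x in S, |u x| ^ j * Real.sqrt (nsq u x)) ^ 2 := by ring
      _ ≤ ((j : ℝ) + 1) ^ 2 * ((∫ x in S, u x ^ (2 * j)) * ∫ x in S, (Real.sqrt (nsq u x)) ^ 2) :=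
          mul_le_mul_of_nonneg_left h5 (by positivity)
      _ ≤ ((j : ℝ) + 1) ^ 2 * ((∫ x in S, u x ^ (2 * j)) * ∫ x, nsq u x) :=
          mul_le_mul_of_nonneg_left (mul_le_mul_of_nonneg_left e6 h8) (by positivity)
  calc C * (∫ x, ‖fderiv ℝ (fun x => u x ^ (j + 1)) x‖) ^ 2 ≤
      C * (((j : ℝ) + 1) ^ 2 * ((∫ x in S, u x ^ (2 * j)) * ∫ x, nsq u x)) :=
        mul_le_mul_of_nonneg_left h9 hC.le
    _ = _ := by ring


theorem lad : S_LAD := by
  obtain ⟨C, hC, h⟩ := rec_step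
  refine ⟨4 * C, by positivity, fun u hu hc => ?_⟩
  have hfin : volume (tsupport u) ≠ ⊤ := hc.isCompact.measure_ne_top
  have h1 := h u hu hc (tsupport u) (isClosed_tsupport u).measurableSet hfin subset_rfl 1
  have h2 : ∫ x in tsupport u, u x ^ (2 * 1) = ∫ x, u x ^ 2 := by
    rw [mul_one]
    refine setIntegral_eq_integral_of_forall_compl_eq_zero (fun x hx => ?_)
    rw [image_eq_zero_of_notMem_tsupport hx]
    norm_num
  rw [h2] at h1
  norm_num at h1
  calc ∫ x, u x ^ 4 ≤ C * 4 * (∫ x, u x ^ 2) * ∫ x, nsq u x := h1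
    _ = _ := by ring

theorem fri : S_FRI := by
  obtain ⟨C, hC, h⟩ := rec_step
  refine ⟨C * Real.pi, by positivity, fun u a R hR hu hsub => ?_⟩
  have hc : HasCompactSupport u := (isCompact_closedBall a R).of_isClosed_subset
    (isClosed_tsupport u) hsub
  have h1 := h u hu hc (closedBall a R) measurableSet_closedBall
    (isCompact_closedBall a R).measure_ne_top hsub 0
  have h2 : ∫ x in closedBall a R, u x ^ (2 * 0) = Real.pi * R ^ 2 := by
    simp only [mul_zero, pow_zero, integral_const, smul_eq_mul, mul_one]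
    rw [Measure.real, Measure.restrict_apply MeasurableSet.univ, univ_inter,
      Complex.volume_closedBall, ENNReal.toReal_mul, ENNReal.toReal_pow,
      ENNReal.toReal_ofReal hR.le]
    simp
    ring
  rw [h2] at h1
  norm_num at h1
  calc ∫ x, u x ^ 2 ≤ C * (Real.pi * R ^ 2) * ∫ x, nsq u x := h1
    _ = _ := by ring

theorem expc : S_EXPC := by
  obtain ⟨C, hC, h⟩ := rec_step
  refine ⟨1 / (2 * (C + 1)), by positivity, fun u hu hc S hS hSf hsub q ε hq hε hqε hen => ?_⟩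
  set V := (volume S).toReal with hV
  have hV0 : 0 ≤ V := ENNReal.toReal_nonneg
  have hE0 : 0 ≤ ∫ x, nsq u x := integral_nonneg (fun x => nsq_nonneg u x)
  -- recursion on the set
  have hb0 : ∫ x in S, u x ^ (2 * 0) = V := by
    simp only [mul_zero, pow_zero, integral_const, smul_eq_mul, mul_one]
    rw [Measure.real, Measure.restrict_apply MeasurableSet.univ, univ_inter]
  have hbnn : ∀ j : ℕ, 0 ≤ ∫ x in S, u x ^ (2 * j) := by
    intro j
    refine integral_nonneg (fun x => ?_)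
    show 0 ≤ u x ^ (2 * j)
    rw [pow_mul]
    positivity
  have hb : ∀ k : ℕ, ∫ x in S, u x ^ (2 * k) ≤ (C * ε ^ 2) ^ k * ((k.factorial : ℝ)) ^ 2 * V := by
    intro k
    induction k with
    | zero => rw [hb0]; simp
    | succ j ih =>
      have h1 := h u hu hc S hS hSf hsub j
      have h2 : ∫ x in S, u x ^ (2 * (j + 1)) = ∫ x, u x ^ (2 * (j + 1)) := by
        refine setIntegral_eq_integral_of_forall_compl_eq_zero (fun x hx => ?_)
        rw [image_eq_zero_of_notMem_tsupport (fun hh => hx (hsub hh))]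
        exact zero_pow (by omega)
      rw [h2]
      refine h1.trans ?_
      have h3 : (∫ x in S, u x ^ (2 * j)) * (∫ x, nsq u x) ≤
          ((C * ε ^ 2) ^ j * ((j.factorial : ℝ)) ^ 2 * V) * ε ^ 2 :=
        mul_le_mul ih hen hE0 (by positivity)
      calc C * ((j : ℝ) + 1) ^ 2 * (∫ x in S, u x ^ (2 * j)) * ∫ x, nsq u x
          = C * ((j : ℝ) + 1) ^ 2 * ((∫ x in S, u x ^ (2 * j)) * ∫ x, nsq u x) := by ring
        _ ≤ C * ((j : ℝ) + 1) ^ 2 * (((C * ε ^ 2) ^ j * ((j.factorial : ℝ)) ^ 2 * V) * ε ^ 2) :=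
            mul_le_mul_of_nonneg_left h3 (by positivity)
        _ = _ := by
            rw [Nat.factorial_succ]
            push_cast
            ring
  -- the series of the hyperbolic cosine
  set F : ℕ → ℂ → ℝ := fun k x => (q * u x) ^ (2 * k) / ((2 * k).factorial : ℝ) with hF
  have hFint : ∀ k, Integrable (F k) (volume.restrict S) := by
    intro k
    exact intOn hu.continuous hc hSf
      (F := fun t => (q * t) ^ (2 * k) / ((2 * k).factorial : ℝ)) (by fun_prop)
  have hFnn : ∀ k x, 0 ≤ F k x := by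
    intro k x
    simp only [hF, pow_mul]
    positivity
  have hθ : q ^ 2 * (C * ε ^ 2) ≤ 1 / 2 := by
    have h1 : (q * ε) ^ 2 ≤ (1 / (2 * (C + 1))) ^ 2 := pow_le_pow_left₀ (by positivity) hqε 2
    have h2 : C * (1 / (2 * (C + 1))) ^ 2 ≤ 1 / 2 := by
      rw [div_pow, one_pow, ← mul_div_assoc, mul_one, div_le_div_iff₀ (by positivity) (by norm_num)]
      nlinarith
    calc q ^ 2 * (C * ε ^ 2) = C * (q * ε) ^ 2 := by ring
      _ ≤ C * (1 / (2 * (C + 1))) ^ 2 := mul_le_mul_of_nonneg_left h1 hC.le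
      _ ≤ 1 / 2 := h2
  have hFle : ∀ k, ∫ x in S, F k x ≤ V * (1 / 2) ^ k := by
    intro k
    have e1 : ∫ x in S, F k x = q ^ (2 * k) / ((2 * k).factorial : ℝ) * ∫ x in S, u x ^ (2 * k) := by
      rw [← integral_const_mul]
      refine integral_congr_ae (Filter.Eventually.of_forall fun x => ?_)
      simp only [hF, mul_pow]
      ring
    rw [e1]
    have h1 : q ^ (2 * k) / ((2 * k).factorial : ℝ) * ∫ x in S, u x ^ (2 * k) ≤
        q ^ (2 * k) / ((2 * k).factorial : ℝ) * ((C * ε ^ 2) ^ k * ((k.factorial : ℝ)) ^ 2 * V) :=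
      mul_le_mul_of_nonneg_left (hb k) (by positivity)
    refine h1.trans ?_
    have h2 : ((k.factorial : ℝ)) ^ 2 ≤ ((2 * k).factorial : ℝ) := by
      have := Nat.le_of_dvd (Nat.factorial_pos _) (Nat.factorial_mul_factorial_dvd_factorial_add k k)
      rw [← two_mul] at this
      rw [sq]
      exact_mod_cast this
    have h3 : (0 : ℝ) < ((2 * k).factorial : ℝ) := by exact_mod_cast Nat.factorial_pos _
    have h4 : q ^ (2 * k) / ((2 * k).factorial : ℝ) * ((C * ε ^ 2) ^ k * ((k.factorial : ℝ)) ^ 2 * V)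
        = (q ^ 2 * (C * ε ^ 2)) ^ k * V * (((k.factorial : ℝ)) ^ 2 / ((2 * k).factorial : ℝ)) := by
      rw [mul_pow (q ^ 2), ← pow_mul]
      ring
    rw [h4]
    have h5 : ((k.factorial : ℝ)) ^ 2 / ((2 * k).factorial : ℝ) ≤ 1 := (div_le_one h3).mpr h2
    have h6 : (q ^ 2 * (C * ε ^ 2)) ^ k ≤ (1 / 2) ^ k := pow_le_pow_left₀ (by positivity) hθ k
    calc (q ^ 2 * (C * ε ^ 2)) ^ k * V * (((k.factorial : ℝ)) ^ 2 / ((2 * k).factorial : ℝ))
        ≤ (q ^ 2 * (C * ε ^ 2)) ^ k * V * 1 := mul_le_mul_of_nonneg_left h5 (by positivity)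
      _ = (q ^ 2 * (C * ε ^ 2)) ^ k * V := mul_one _
      _ ≤ (1 / 2) ^ k * V := mul_le_mul_of_nonneg_right h6 hV0
      _ = _ := mul_comm _ _
  have hgeom : Summable (fun k : ℕ => V * (1 / 2 : ℝ) ^ k) :=
    (summable_geometric_of_lt_one (by norm_num) (by norm_num)).mul_left V
  have hsumI : Summable (fun k => ∫ x in S, F k x) :=
    Summable.of_nonneg_of_le (fun k => integral_nonneg (hFnn k)) hFle hgeom
  have hsumN : Summable (fun k => ∫ x in S, ‖F k x‖) := by
    have : (fun k => ∫ x in S, ‖F k x‖) = fun k => ∫ x in S, F k x := by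
      funext k
      refine integral_congr_ae (Filter.Eventually.of_forall fun x => ?_)
      exact Real.norm_of_nonneg (hFnn k x)
    rw [this]
    exact hsumI
  have hsum := hasSum_integral_of_summable_integral_norm hFint hsumN
  have hcosh : ∀ x, ∑' k, F k x = Real.cosh (q * u x) := fun x => (Real.hasSum_cosh (q * u x)).tsum_eq
  simp only [hcosh] at hsum
  have hle : ∫ x in S, Real.cosh (q * u x) ≤ 2 * V := by
    rw [← hsum.tsum_eq]
    calc ∑' k, ∫ x in S, F k x ≤ ∑' k : ℕ, V * (1 / 2 : ℝ) ^ k := hsumI.tsum_le_tsum hFle hgeom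
      _ = V * ∑' k : ℕ, (1 / 2 : ℝ) ^ k := tsum_mul_left
      _ = V * 2 := by rw [tsum_geometric_two]
      _ = 2 * V := mul_comm _ _
  have hcint : IntegrableOn (fun x => 2 * Real.cosh (q * u x)) S :=
    intOn hu.continuous hc hSf (F := fun t => 2 * Real.cosh (q * t)) (by fun_prop)
  calc ∫ x in S, Real.exp (q * |u x|) ≤ ∫ x in S, 2 * Real.cosh (q * u x) := by
        refine integral_mono_of_nonneg (Filter.Eventually.of_forall fun x => (Real.exp_pos _).le)
          hcint (Filter.Eventually.of_forall fun x => ?_)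
        show Real.exp (q * |u x|) ≤ 2 * Real.cosh (q * u x)
        have h1 : q * |u x| = |q * u x| := by rw [abs_mul, abs_of_nonneg hq]
        rw [h1, ← Real.cosh_abs (q * u x), Real.cosh_eq]
        have := Real.exp_pos (-|q * u x|)
        linarith
    _ = 2 * ∫ x in S, Real.cosh (q * u x) := integral_const_mul _ _
    _ ≤ 2 * (2 * V) := by linarith
    _ = 4 * V := by ring

end Pool.Agent.W451.PS
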